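import Pool.Agent.W92.ET.Base

set_option autoImplicit false

namespace Pool.Agent.W511.ET

open Pool.Agent.W92.ET

lemma pp_le (u z : ℝ) (hu : 0 < u) (huz : u ≤ z) : |pp u z| ≤ (1 + z) ^ 3 := by
  have hz : 0 < z := lt_of_lt_of_le hu huz
  have h2 : u ^ 2 ≤ z ^ 2 := by nlinarith
  have h0 : 0 ≤ u ^ 2 := by positivity
  have hz2 : 0 ≤ z ^ 2 := by positivity
  have hz3 : 0 ≤ z ^ 3 := by positivity
  have h3 : u ^ 2 * z ≤ z ^ 3 := by nlinarith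
  have h4 : 0 ≤ u ^ 2 * z := by positivity
  unfold pp
  rw [abs_le]
  constructor <;> nlinarith

lemma qq_le (u z : ℝ) (hu : 0 < u) (huz : u ≤ z) : |qq u z| ≤ (1 + z) ^ 3 := by
  have hz : 0 < z := lt_of_lt_of_le hu huz
  have h0 : 0 ≤ u * z := by positivity
  have h1 : u * z ≤ z ^ 2 := by nlinarith
  have h2 : u * z ^ 2 ≤ z ^ 3 := by nlinarith [sq_nonneg z]
  have h2' : 0 ≤ u * z ^ 2 := by positivity
  have h3 : u ^ 3 ≤ z ^ 3 := pow_le_pow_left₀ hu.le huz 3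
  have h3' : 0 ≤ u ^ 3 := by positivity
  have hz2 : 0 ≤ z ^ 2 := by positivity
  have hz3 : 0 ≤ z ^ 3 := by positivity
  unfold qq
  rw [abs_le]
  constructor <;> nlinarith

lemma main_bd (z : ℝ) (hz : 0 < z) :
    (1 + z) ^ 3 * Real.exp (-z) ≤ 4096 * z ^ (-(1 / 4 : ℝ)) * Real.exp (-(z / 4)) := by
  have h1 : 1 + z ≤ 8 * Real.exp (z / 8) := by
    have := Real.add_one_le_exp (z / 8)
    nlinarith
  have hq : z ^ (1 / 4 : ℝ) ≤ 1 + z := by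
    rcases le_total z 1 with h | h
    · have : z ^ (1 / 4 : ℝ) ≤ 1 := Real.rpow_le_one hz.le h (by norm_num)
      linarith
    · have : z ^ (1 / 4 : ℝ) ≤ z ^ (1 : ℝ) := Real.rpow_le_rpow_of_exponent_le h (by norm_num)
      rw [Real.rpow_one] at this
      linarith
  have hpos : 0 < z ^ (1 / 4 : ℝ) := Real.rpow_pos_of_pos hz _
  have h4 : (1 + z) ^ 3 * z ^ (1 / 4 : ℝ) ≤ 4096 * Real.exp (z / 2) := by
    have e : Real.exp (z / 2) = Real.exp (z / 8) ^ 4 := by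
      rw [← Real.exp_nat_mul]; congr 1; push_cast; ring
    calc (1 + z) ^ 3 * z ^ (1 / 4 : ℝ) ≤ (1 + z) ^ 3 * (1 + z) := by gcongr
      _ = (1 + z) ^ 4 := by ring
      _ ≤ (8 * Real.exp (z / 8)) ^ 4 := by gcongr
      _ = 4096 * Real.exp (z / 2) := by rw [e]; ring
  have h5 : z ^ (-(1 / 4 : ℝ)) * z ^ (1 / 4 : ℝ) = 1 := by
    rw [← Real.rpow_add hz]; norm_num
  have h6 : Real.exp (-z) = Real.exp (-(z / 2)) * Real.exp (-(z / 4)) * Real.exp (-(z / 4)) := by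
    rw [← Real.exp_add, ← Real.exp_add]; congr 1; ring
  have h7 : Real.exp (z / 2) * Real.exp (-(z / 2)) = 1 := by
    rw [← Real.exp_add]; simp
  have hm : 0 < z ^ (-(1 / 4 : ℝ)) := Real.rpow_pos_of_pos hz _
  have hle1 : Real.exp (-(z / 4)) ≤ 1 := by
    rw [Real.exp_le_one_iff]; linarith
  calc (1 + z) ^ 3 * Real.exp (-z)
      = ((1 + z) ^ 3 * z ^ (1 / 4 : ℝ)) * z ^ (-(1 / 4 : ℝ)) * Real.exp (-z) := by
        rw [mul_assoc ((1 + z) ^ 3), mul_comm (z ^ (1 / 4 : ℝ)), h5, mul_one]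
    _ ≤ (4096 * Real.exp (z / 2)) * z ^ (-(1 / 4 : ℝ)) * Real.exp (-z) := by gcongr
    _ = 4096 * z ^ (-(1 / 4 : ℝ)) * ((Real.exp (z / 2) * Real.exp (-(z / 2))) *
          Real.exp (-(z / 4)) * Real.exp (-(z / 4))) := by rw [h6]; ring
    _ = 4096 * z ^ (-(1 / 4 : ℝ)) * (Real.exp (-(z / 4)) * Real.exp (-(z / 4))) := by
        rw [h7, one_mul]
    _ ≤ 4096 * z ^ (-(1 / 4 : ℝ)) * (1 * Real.exp (-(z / 4))) := by gcongr
    _ = 4096 * z ^ (-(1 / 4 : ℝ)) * Real.exp (-(z / 4)) := by ring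

lemma all_bd (u τ : ℝ) (hu : 0 < u) :
    (1 + u * Real.cosh τ) ^ 3 * Real.exp (-(u * Real.cosh τ)) ≤
      8192 * (u ^ (-(1 / 4 : ℝ)) * Real.exp (-(u / 4))) * Real.exp (-(τ / 4)) := by
  have hc : 1 ≤ Real.cosh τ := Real.one_le_cosh τ
  have hc0 : 0 < Real.cosh τ := by linarith
  have hz : 0 < u * Real.cosh τ := by positivity
  have h := main_bd _ hz
  have hce : Real.exp τ / 2 ≤ Real.cosh τ := by
    rw [Real.cosh_eq]
    have := Real.exp_pos (-τ)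
    linarith
  have h1 : (Real.cosh τ) ^ (-(1 / 4 : ℝ)) ≤ 2 * Real.exp (-(τ / 4)) := by
    have h2 : (Real.cosh τ) ^ (-(1 / 4 : ℝ)) ≤ (Real.exp τ / 2) ^ (-(1 / 4 : ℝ)) :=
      Real.rpow_le_rpow_of_nonpos (by positivity) hce (by norm_num)
    have h3 : (Real.exp τ / 2) ^ (-(1 / 4 : ℝ)) =
        Real.exp (-(τ / 4)) * (2 : ℝ) ^ (1 / 4 : ℝ) := by
      rw [Real.div_rpow (Real.exp_pos τ).le (by norm_num), ← Real.exp_mul,
        Real.rpow_neg (by norm_num : (0 : ℝ) ≤ 2), div_inv_eq_mul]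
      congr 2; ring
    have h4 : (2 : ℝ) ^ (1 / 4 : ℝ) ≤ 2 := by
      have := Real.rpow_le_rpow_of_exponent_le (by norm_num : (1 : ℝ) ≤ 2)
        (by norm_num : (1 / 4 : ℝ) ≤ 1)
      rwa [Real.rpow_one] at this
    rw [h3] at h2
    have := Real.exp_pos (-(τ / 4))
    nlinarith
  have h5 : Real.exp (-(u * Real.cosh τ / 4)) ≤ Real.exp (-(u / 4)) := by
    rw [Real.exp_le_exp]
    nlinarith
  have hu4 : 0 < u ^ (-(1 / 4 : ℝ)) := Real.rpow_pos_of_pos hu _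
  calc (1 + u * Real.cosh τ) ^ 3 * Real.exp (-(u * Real.cosh τ))
      ≤ 4096 * (u * Real.cosh τ) ^ (-(1 / 4 : ℝ)) * Real.exp (-(u * Real.cosh τ / 4)) := h
    _ = 4096 * (u ^ (-(1 / 4 : ℝ)) * (Real.cosh τ) ^ (-(1 / 4 : ℝ))) *
          Real.exp (-(u * Real.cosh τ / 4)) := by rw [Real.mul_rpow hu.le hc0.le]
    _ ≤ 4096 * (u ^ (-(1 / 4 : ℝ)) * (2 * Real.exp (-(τ / 4)))) * Real.exp (-(u / 4)) := by
        gcongr
    _ = 8192 * (u ^ (-(1 / 4 : ℝ)) * Real.exp (-(u / 4))) * Real.exp (-(τ / 4)) := by ring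

theorem bd : S_bd := by
  refine ⟨8192, by norm_num, ?_⟩
  intro u τ hu hτ
  have hc : 1 ≤ Real.cosh τ := Real.one_le_cosh τ
  have huz : u ≤ u * Real.cosh τ := by nlinarith
  have h := all_bd u τ hu
  constructor
  · refine le_trans ?_ h
    have := pp_le u _ hu huz
    gcongr
  · refine le_trans ?_ h
    have := qq_le u _ hu huz
    gcongr

end Pool.Agent.W511.ET
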